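import Pool.Agent.R550.BI.Transfer
import Pool.Agent.R542.Base

/-!
# NP-hardness
-/

namespace Pool.Agent.R550.BI

open Pool.Agent.NPC Pool.Agent.H692R2 Pool.Agent.NPC.R542

/-- The instances `(G, t)` with `G` connected, at least two vertices and `Γ_b(G) ≥ t`. -/
def UpperBroadcast (I : FinGraph × ℕ) : Prop :=
  I.1.graph.Connected ∧ 2 ≤ I.1.n ∧ ∃ f, MinDom I.1.graph f ∧ I.2 ≤ ∑ v, f v

/-- The instances `(G, t)` with `G` connected, at least two vertices and `IR_b(G) ≥ t`. -/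
def UpperIrredundance (I : FinGraph × ℕ) : Prop :=
  I.1.graph.Connected ∧ 2 ≤ I.1.n ∧ ∃ f, Irr I.1.graph f ∧ I.2 ≤ ∑ v, f v

/-- numbering of the vertices -/
def eqv (n m : ℕ) : Fin (n * m + 1) ≃ Option (Fin n × Fin m) :=
  finSuccEquivLast.trans (Equiv.optionCongr finProdFinEquiv.symm)

/-- the new graph -/
def bg (n m : ℕ) (H : SimpleGraph (Fin n)) : SimpleGraph (Fin (n * m + 1)) :=
  (blow H m).comap (eqv n m)

/-- the adjacency bit of the new graph -/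
noncomputable def bb (H : FinGraph) (m x y : ℕ) : Bool :=
  (xor (decide (x = H.n * m)) (decide (y = H.n * m))) ||
    (!decide (x = H.n * m) && (!decide (y = H.n * m) && adjB H (x / m) (y / m)))

theorem e_last (n m : ℕ) : eqv n m (Fin.last _) = none := by simp [eqv]

theorem e_cast (n m : ℕ) (i : Fin (n * m)) :
    eqv n m (Fin.castSucc i) = some (finProdFinEquiv.symm i) := by
  unfold eqv
  rw [Equiv.trans_apply, finSuccEquivLast_castSucc]
  rfl

theorem bg_adj (H : FinGraph) (m : ℕ) (i j : Fin (H.n * m + 1)) :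
    (bg H.n m H.graph).Adj i j ↔ bb H m i j = true := by
  change (blow H.graph m).Adj (eqv _ _ i) (eqv _ _ j) ↔ _
  unfold bb
  induction i using Fin.lastCases with
  | last =>
    induction j using Fin.lastCases with
    | last => rw [e_last]; simp [blow]
    | cast j =>
      have hj : (j : ℕ) ≠ H.n * m := j.2.ne
      rw [e_last, e_cast]
      simp [blow, hj]
  | cast i =>
    have hi : (i : ℕ) ≠ H.n * m := i.2.ne
    induction j using Fin.lastCases with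
    | last =>
      rw [e_last, e_cast]
      simp [blow, hi]
    | cast j =>
      have hj : (j : ℕ) ≠ H.n * m := j.2.ne
      have h := adjB_iff H (finProdFinEquiv.symm i).1 (finProdFinEquiv.symm j).1
      rw [e_cast, e_cast]
      simp only [Fin.val_castSucc, hi, hj, decide_false,
        Bool.xor_false, Bool.not_false, Bool.true_and, Bool.false_or]
      rw [show (blow H.graph m).Adj (some (finProdFinEquiv.symm i)) (some (finProdFinEquiv.symm j)) ↔
        H.graph.Adj (finProdFinEquiv.symm i).1 (finProdFinEquiv.symm j).1 from Iff.rfl, ← h]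
      simp [finProdFinEquiv]

theorem bg_spec (n m k : ℕ) (H : SimpleGraph (Fin n)) (hk : 1 ≤ k) (hn : 1 ≤ n) (hm : n + 3 ≤ m) :
    (bg n m H).Connected ∧ 2 ≤ n * m + 1 ∧
    ((∃ f, MinDom (bg n m H) f ∧ m * k ≤ ∑ x, f x) ↔
      ∃ A : Finset (Fin n), H.IsIndepSet (A : Set (Fin n)) ∧ k ≤ A.card) ∧
    ((∃ f, Irr (bg n m H) f ∧ m * k ≤ ∑ x, f x) ↔
      ∃ A : Finset (Fin n), H.IsIndepSet (A : Set (Fin n)) ∧ k ≤ A.card) := by
  have : Nonempty (Fin n) := ⟨⟨0, by omega⟩⟩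
  have hc := conn H m
  have hd := comap_dist (blow H m) (eqv n m) hc
  have h := main H m k hk (by simpa using hm)
  refine ⟨(SimpleGraph.Iso.comap (eqv n m) (blow H m)).connected_iff.2 hc, ?_, ?_, ?_⟩
  · nlinarith
  · exact (tr_exists (blow H m) (eqv n m) MinDom MinDom
      (tr_minDom (blow H m) (eqv n m) hd) (m * k)).trans h.1
  · exact (tr_exists (blow H m) (eqv n m) Irr Irr
      (tr_irr (blow H m) (eqv n m) hd) (m * k)).trans h.2

/-- a fixed instance -/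
noncomputable def c0 : FinGraph × ℕ := (⟨1 * 4 + 1, bg 1 4 ⊥⟩, 4 * 1)

/-- the reduction -/
noncomputable def rd (I : FinGraph × ℕ) : FinGraph × ℕ :=
  if I.2 = 0 then c0
  else (⟨I.1.n * (I.1.n + 3) + 1, bg I.1.n (I.1.n + 3) I.1.graph⟩, (I.1.n + 3) * I.2)

theorem rd_spec (I : FinGraph × ℕ) (hI : Bounded I ∧ I.1.n = 3 * I.2) :
    (HasIndep I ↔ UpperBroadcast (rd I)) ∧ (HasIndep I ↔ UpperIrredundance (rd I)) := by
  obtain ⟨hb, hn⟩ := hI
  by_cases h0 : I.2 = 0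
  · have h1 : HasIndep I := ⟨∅, by simp, by simp [h0]⟩
    have h := bg_spec 1 4 1 ⊥ le_rfl le_rfl le_rfl
    have hA : ∃ A : Finset (Fin 1), (⊥ : SimpleGraph (Fin 1)).IsIndepSet (A : Set (Fin 1)) ∧
        1 ≤ A.card := ⟨{0}, by simp, by simp⟩
    unfold rd
    rw [if_pos h0]
    exact ⟨⟨fun _ => ⟨h.1, h.2.1, h.2.2.1.2 hA⟩, fun _ => h1⟩,
      ⟨fun _ => ⟨h.1, h.2.1, h.2.2.2.2 hA⟩, fun _ => h1⟩⟩
  · have h := bg_spec I.1.n (I.1.n + 3) I.2 I.1.graph (by omega) (by omega) le_rfl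
    have hA : HasIndep I ↔ ∃ A : Finset (Fin I.1.n), I.1.graph.IsIndepSet (A : Set (Fin I.1.n)) ∧
        I.2 ≤ A.card := by
      constructor
      · rintro ⟨S, hS, hc⟩
        exact ⟨S, hS, hc.ge⟩
      · rintro ⟨S, hS, hc⟩
        exact ⟨S, hS, le_antisymm (hb S hS) hc⟩
    unfold rd
    rw [if_neg h0, hA]
    exact ⟨⟨fun hh => ⟨h.1, h.2.1, h.2.2.1.2 hh⟩, fun hh => h.2.2.1.1 hh.2.2⟩,
      ⟨fun hh => ⟨h.1, h.2.1, h.2.2.2.2 hh⟩, fun hh => h.2.2.2.1 hh.2.2⟩⟩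

theorem upm : UPoly (fun I : FinGraph × ℕ => I.1.n + 3) :=
  UPoly.add (upoly_n (NPC.Poly.fst NPC.Poly.id)) (UPoly.const 3)

theorem upN : UPoly (fun I : FinGraph × ℕ => I.1.n * (I.1.n + 3) + 1) :=
  UPoly.add (UPoly.mul (upoly_n (NPC.Poly.fst NPC.Poly.id)) upm) (UPoly.const 1)

theorem poly_bb : NPC.Poly (fun p : ((FinGraph × ℕ) × ℕ) × ℕ =>
    bb p.1.1.1 (p.1.1.1.n + 3) p.1.2 p.2) := by
  have h0 : NPC.Poly (fun p : ((FinGraph × ℕ) × ℕ) × ℕ => p.1.1) :=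
    NPC.Poly.fst (NPC.Poly.fst NPC.Poly.id)
  have hx : NPC.Poly (fun p : ((FinGraph × ℕ) × ℕ) × ℕ => p.1.2) :=
    NPC.Poly.snd (NPC.Poly.fst NPC.Poly.id)
  have hy : NPC.Poly (fun p : ((FinGraph × ℕ) × ℕ) × ℕ => p.2) := NPC.Poly.snd NPC.Poly.id
  have hG : NPC.Poly (fun p : ((FinGraph × ℕ) × ℕ) × ℕ => p.1.1.1) := NPC.Poly.fst h0
  have hnn : NPC.Poly (fun p : ((FinGraph × ℕ) × ℕ) × ℕ => p.1.1.1.n) := poly_n hG
  have hmm : NPC.Poly (fun p : ((FinGraph × ℕ) × ℕ) × ℕ => p.1.1.1.n + 3) :=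
    (UPoly.add (upoly_n hG) (UPoly.const 3)).toPoly
  have hNN := NPC.Poly.mul hnn hmm
  unfold bb
  exact NPC.Poly.or (NPC.Poly.xor (NPC.Poly.decide_eq hx hNN) (NPC.Poly.decide_eq hy hNN))
    (NPC.Poly.and (NPC.Poly.not (NPC.Poly.decide_eq hx hNN))
      (NPC.Poly.and (NPC.Poly.not (NPC.Poly.decide_eq hy hNN))
        (poly_adjB hG (NPC.Poly.div hx hmm) (NPC.Poly.div hy hmm))))

theorem poly_fg : NPC.Poly (fun I : FinGraph × ℕ =>
    (⟨I.1.n * (I.1.n + 3) + 1, bg I.1.n (I.1.n + 3) I.1.graph⟩ : FinGraph)) :=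
  poly_finGraph (α := FinGraph × ℕ) (N := fun I => I.1.n * (I.1.n + 3) + 1)
    (G := fun I => bg I.1.n (I.1.n + 3) I.1.graph)
    (b := fun I x y => bb I.1 (I.1.n + 3) x y) upN poly_bb
    (fun a i j => bg_adj a.1 (a.1.n + 3) i j)

theorem poly_tg : NPC.Poly (fun I : FinGraph × ℕ => (I.1.n + 3) * I.2) :=
  NPC.Poly.mul upm.toPoly (NPC.Poly.snd NPC.Poly.id)

theorem poly_ite' {α β : Type} [TEnc α] [TEnc β] {p : α → Prop} [DecidablePred p] {c : β}
    {g : α → β} (hp : NPC.Poly (fun a => decide (p a))) (hg : NPC.Poly g) :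
    NPC.Poly (fun a => if p a then c else g a) :=
  NPC.Poly.ite hp (NPC.Poly.const c) hg

theorem poly_rd : NPC.Poly rd := by
  have h1 := NPC.Poly.pair poly_fg poly_tg
  have h2 : NPC.Poly (fun I : FinGraph × ℕ => decide (I.2 = 0)) :=
    NPC.Poly.decide_eq (NPC.Poly.snd NPC.Poly.id) (NPC.Poly.const 0)
  exact poly_ite' (c := c0) h2 h1

theorem hard : NPHardP UpperBroadcast ∧ NPHardP UpperIrredundance := by
  constructor
  · exact (HardPr.toHardI (Pr := fun _ => True) (hardPr_indep.trans poly_rd (fun _ _ => trivial)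
      fun I hI => (rd_spec I hI).1)).toNPHardP
  · exact (HardPr.toHardI (Pr := fun _ => True) (hardPr_indep.trans poly_rd (fun _ _ => trivial)
      fun I hI => (rd_spec I hI).2)).toNPHardP

end Pool.Agent.R550.BI
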