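import Mathlib

/-!
# Broadcasts on graphs of diameter two: reduction from Independent Set
-/

namespace Pool.Agent.R550.BI

open Finset

variable {W : Type} 

/-- `f` is a broadcast: `f v` is at most the eccentricity of `v`. -/
def IsBroadcast (G : SimpleGraph W) (f : W → ℕ) : Prop := ∀ v, ∃ u, f v ≤ G.dist v u

/-- `u` hears `f` from `v` -/
def Hears (G : SimpleGraph W) (f : W → ℕ) (u v : W) : Prop := 0 < f v ∧ G.dist u v ≤ f v

/-- dominating -/
def Dom (G : SimpleGraph W) (f : W → ℕ) : Prop := ∀ u, ∃ v, Hears G f u v

/-- minimal dominating broadcast -/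
def MinDom (G : SimpleGraph W) (f : W → ℕ) : Prop :=
  IsBroadcast G f ∧ Dom G f ∧ ∀ g, IsBroadcast G g → g ≤ f → g ≠ f → ¬ Dom G g

open Classical in
/-- the private boundary of `v` -/
def PB (G : SimpleGraph W) (f : W → ℕ) (v : W) : Set W :=
  {u | G.dist u v ≤ f v ∧ ∀ w, ¬ Hears G (Function.update f v (f v - 1)) u w}

/-- irredundant broadcast -/
def Irr (G : SimpleGraph W) (f : W → ℕ) : Prop :=
  IsBroadcast G f ∧ ∀ v, 0 < f v → (PB G f v).Nonempty

/-- `H` with every vertex replaced by `m` independent copies, and a universal vertex `none`. -/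
def blow {V : Type} (H : SimpleGraph V) (m : ℕ) : SimpleGraph (Option (V × Fin m)) where
  Adj x y := match x, y with
    | none, some _ => True
    | some _, none => True
    | some a, some b => H.Adj a.1 b.1
    | none, none => False
  symm := ⟨by
    intro x y h
    cases x <;> cases y <;> simp_all [H.adj_comm]⟩
  loopless := ⟨by
    intro x h
    cases x <;> simp_all⟩

theorem minDom_irr (G : SimpleGraph W) (f : W → ℕ) (h : MinDom G f) : Irr G f := by
  classical
  obtain ⟨hb, hd, hm⟩ := h
  refine ⟨hb, fun v hv => ?_⟩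
  by_contra hne
  rw [Set.not_nonempty_iff_eq_empty] at hne
  refine hm (Function.update f v (f v - 1)) ?_ ?_ ?_ ?_
  · intro w
    obtain ⟨u, hu⟩ := hb w
    refine ⟨u, le_trans ?_ hu⟩
    by_cases hw : w = v
    · subst hw; simp
    · simp [Function.update_of_ne hw]
  · intro w
    by_cases hw : w = v
    · subst hw; simp
    · simp [Function.update_of_ne hw]
  · intro he
    have := congrFun he v
    simp at this
    omega
  · intro u
    obtain ⟨w, hw0, hw⟩ := hd u
    by_cases hwv : w = v
    · subst hwv
      by_contra hcon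
      push Not at hcon
      have : u ∈ PB G f w := by
        refine ⟨hw, fun w' hw' => hcon w' ?_⟩
        convert hw'
      rw [hne] at this
      exact this
    · exact ⟨w, by simpa [Function.update_of_ne hwv] using hw0,
        by simpa [Function.update_of_ne hwv] using hw⟩

variable {V : Type} (H : SimpleGraph V) (m : ℕ)

theorem conn : (blow H m).Connected := by
  rw [SimpleGraph.connected_iff_exists_forall_reachable]
  refine ⟨none, fun x => ?_⟩
  cases x with
  | none => exact SimpleGraph.Reachable.refl _
  | some a => exact SimpleGraph.Adj.reachable (show (blow H m).Adj none (some a) from trivial)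

theorem dist_none (x : Option (V × Fin m)) : (blow H m).dist x none ≤ 1 := by
  cases x with
  | none => simp
  | some a =>
    exact (SimpleGraph.dist_eq_one_iff_adj.2 (show (blow H m).Adj (some a) none from trivial)).le

theorem dist_le_two (x y : Option (V × Fin m)) : (blow H m).dist x y ≤ 2 := by
  have h1 := dist_none H m x
  have h2 := dist_none H m y
  have h3 := (conn H m).dist_triangle (u := x) (v := none) (w := y)
  rw [SimpleGraph.dist_comm] at h2
  omega

theorem dist_le_one (x y : Option (V × Fin m)) :
    (blow H m).dist x y ≤ 1 ↔ x = y ∨ (blow H m).Adj x y := by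
  constructor
  · intro h
    rcases Nat.le_one_iff_eq_zero_or_eq_one.1 h with h | h
    · exact Or.inl ((conn H m).dist_eq_zero_iff.1 h)
    · exact Or.inr (SimpleGraph.dist_eq_one_iff_adj.1 h)
  · rintro (rfl | h)
    · simp
    · exact (SimpleGraph.dist_eq_one_iff_adj.2 h).le

theorem priv (G : SimpleGraph W) (f : W → ℕ) (hf : Irr G f) (w : W) (hw : 0 < f w) :
    ∃ u, G.dist u w ≤ f w ∧ ∀ v, v ≠ w → 0 < f v → f v < G.dist u v := by
  classical
  obtain ⟨u, hu, h⟩ := hf.2 w hw
  refine ⟨u, hu, fun v hv hv0 => ?_⟩
  have h1 := h v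
  unfold Hears at h1
  rw [Function.update_of_ne hv] at h1
  by_contra hcon
  exact h1 ⟨hv0, not_lt.1 hcon⟩

section fin

variable [Fintype V]

theorem le_one (f : Option (V × Fin m) → ℕ) (hf : Irr (blow H m) f) (hs : 3 ≤ ∑ x, f x)
    (v : Option (V × Fin m)) : f v ≤ 1 := by
  classical
  by_contra hv
  obtain ⟨u, hu⟩ := hf.1 v
  have h2 := dist_le_two H m v u
  have hz : ∀ w, w ≠ v → f w = 0 := by
    intro w hw
    by_contra h0
    obtain ⟨u', -, h⟩ := priv _ f hf w (Nat.pos_of_ne_zero h0)
    have h3 := h v hw.symm (by omega)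
    have h4 := dist_le_two H m u' v
    omega
  rw [Finset.sum_eq_single v (fun b _ hb => hz b hb) (by simp)] at hs
  omega

theorem none_zero (f : Option (V × Fin m) → ℕ) (hf : Irr (blow H m) f) (hs : 3 ≤ ∑ x, f x) :
    f none = 0 := by
  classical
  by_contra h0
  have hz : ∀ w, w ≠ none → f w = 0 := by
    intro w hw
    by_contra h1
    obtain ⟨u', -, h⟩ := priv _ f hf w (Nat.pos_of_ne_zero h1)
    have h3 := h none hw.symm (by omega)
    have h4 := dist_none H m u'
    omega
  rw [Finset.sum_eq_single none (fun b _ hb => hz b hb) (by simp)] at hs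
  have := le_one H m f hf (by rw [Finset.sum_eq_single none (fun b _ hb => hz b hb) (by simp)]; exact hs) none
  omega

open Classical in
/-- vertices of `H` with at least two copies in the support -/
noncomputable def two (f : Option (V × Fin m) → ℕ) : Finset V :=
  univ.filter fun a => 2 ≤ (univ.filter fun i : Fin m => 0 < f (some (a, i))).card

theorem two_indep (f : Option (V × Fin m) → ℕ) (hf : Irr (blow H m) f) (hs : 3 ≤ ∑ x, f x) :
    H.IsIndepSet (two m f : Set V) := by
  classical
  intro a ha b hb hab hadj
  have ha' : 2 ≤ (univ.filter fun i : Fin m => 0 < f (some (a, i))).card := by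
    have := Finset.mem_coe.1 ha
    unfold two at this
    exact (Finset.mem_filter.1 this).2
  have hb' : 2 ≤ (univ.filter fun i : Fin m => 0 < f (some (b, i))).card := by
    have := Finset.mem_coe.1 hb
    unfold two at this
    exact (Finset.mem_filter.1 this).2
  obtain ⟨i, hi, i', hi', hne⟩ := Finset.one_lt_card.1 ha'
  obtain ⟨j, hj⟩ := Finset.card_pos.1 (by omega : 0 < (univ.filter fun i : Fin m =>
    0 < f (some (b, i))).card)
  simp only [Finset.mem_filter, Finset.mem_univ, true_and] at hi hi' hj
  obtain ⟨u, hu, h⟩ := priv _ f hf _ hi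
  have hu1 : (blow H m).dist u (some (a, i)) ≤ 1 := hu.trans (le_one H m f hf hs _)
  rcases (dist_le_one H m _ _).1 hu1 with rfl | hadj'
  · have h1 := h (some (b, j)) (by simp; intro h; exact absurd h.symm hab) hj
    have h2 : (blow H m).dist (some (a, i)) (some (b, j)) ≤ 1 :=
      (dist_le_one H m _ _).2 (Or.inr hadj)
    omega
  · have h1 := h (some (a, i')) (by simp; exact fun h => hne h.symm) hi'
    have h2 : (blow H m).dist u (some (a, i')) ≤ 1 := by
      refine (dist_le_one H m _ _).2 (Or.inr ?_)
      cases u with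
      | none => exact trivial
      | some c => exact hadj'
    omega

theorem sum_le (f : Option (V × Fin m) → ℕ) (hf : Irr (blow H m) f) (hs : 3 ≤ ∑ x, f x) :
    ∑ x, f x ≤ m * (two m f).card + Fintype.card V := by
  classical
  rw [Fintype.sum_option, none_zero H m f hf hs, zero_add, Fintype.sum_prod_type]
  have key : ∀ a : V, ∑ i : Fin m, f (some (a, i)) ≤ (if a ∈ two m f then m else 0) + 1 := by
    intro a
    have h1 : ∑ i : Fin m, f (some (a, i)) ≤
        (univ.filter fun i : Fin m => 0 < f (some (a, i))).card := by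
      rw [Finset.card_filter]
      refine Finset.sum_le_sum fun i _ => ?_
      have := le_one H m f hf hs (some (a, i))
      split_ifs <;> omega
    have h2 : (univ.filter fun i : Fin m => 0 < f (some (a, i))).card ≤ m := by
      refine (Finset.card_le_univ _).trans ?_
      simp
    by_cases ha : a ∈ two m f
    · rw [if_pos ha]; omega
    · rw [if_neg ha]
      unfold two at ha
      simp only [Finset.mem_filter, Finset.mem_univ, true_and, not_le] at ha
      omega
  calc ∑ a : V, ∑ i : Fin m, f (some (a, i)) ≤ ∑ a : V, ((if a ∈ two m f then m else 0) + 1) :=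
        Finset.sum_le_sum fun a _ => key a
    _ = m * (two m f).card + Fintype.card V := by
        rw [Finset.sum_add_distrib, Finset.sum_ite_mem]
        simp [mul_comm]

theorem indep_of_irr (k : ℕ) (hk : 1 ≤ k) (hm : Fintype.card V + 3 ≤ m)
    (f : Option (V × Fin m) → ℕ) (hf : Irr (blow H m) f) (hs : m * k ≤ ∑ x, f x) :
    ∃ A : Finset V, H.IsIndepSet (A : Set V) ∧ k ≤ A.card := by
  have h3 : 3 ≤ ∑ x, f x := by nlinarith
  refine ⟨two m f, two_indep H m f hf h3, ?_⟩
  have h := sum_le H m f hf h3
  by_contra hcon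
  have h4 : (two m f).card + 1 ≤ k := by omega
  have h5 : m * ((two m f).card + 1) ≤ m * k := Nat.mul_le_mul_left _ h4
  rw [Nat.mul_add, mul_one] at h5
  omega

open Classical in
/-- the indicator broadcast of the copies of `A` -/
noncomputable def ind (A : Finset V) : Option (V × Fin m) → ℕ
  | none => 0
  | some a => if a.1 ∈ A then 1 else 0

theorem exists_max (H : SimpleGraph V) (A0 : Finset V) (h0 : H.IsIndepSet (A0 : Set V)) :
    ∃ A : Finset V, H.IsIndepSet (A : Set V) ∧ A0.card ≤ A.card ∧
      ∀ v, v ∉ A → ∃ a ∈ A, H.Adj v a := by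
  classical
  obtain ⟨A, hA, hmax⟩ := Finset.exists_max_image
    (univ.filter fun A : Finset V => H.IsIndepSet (A : Set V)) Finset.card
    ⟨A0, by simpa using h0⟩
  simp only [Finset.mem_filter, Finset.mem_univ, true_and] at hA hmax
  refine ⟨A, hA, hmax A0 h0, fun v hv => ?_⟩
  by_contra hcon
  push Not at hcon
  have h1 : H.IsIndepSet ((insert v A : Finset V) : Set V) := by
    intro x hx y hy hxy
    simp only [Finset.coe_insert, Set.mem_insert_iff, Finset.mem_coe] at hx hy
    rcases hx with rfl | hx <;> rcases hy with rfl | hy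
    · exact absurd rfl hxy
    · exact hcon y hy
    · exact fun h => hcon x hx h.symm
    · exact hA hx hy hxy
  have h2 := hmax _ h1
  rw [Finset.card_insert_of_notMem hv] at h2
  omega

theorem minDom_ind [Nonempty V] (hm : 0 < m) (A : Finset V) (hA : H.IsIndepSet (A : Set V))
    (hmax : ∀ v, v ∉ A → ∃ a ∈ A, H.Adj v a) : MinDom (blow H m) (ind m A) := by
  classical
  have i0 : Fin m := ⟨0, hm⟩
  refine ⟨?_, ?_, ?_⟩
  · intro v
    cases v with
    | none => exact ⟨none, by simp [ind]⟩
    | some a =>
      refine ⟨none, ?_⟩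
      have : (blow H m).dist (some a) none = 1 :=
        SimpleGraph.dist_eq_one_iff_adj.2 (show (blow H m).Adj (some a) none from trivial)
      rw [this]
      unfold ind
      simp only
      split_ifs <;> omega
  · intro u
    cases u with
    | none =>
      obtain ⟨a, ha⟩ : A.Nonempty := by
        obtain ⟨v⟩ := ‹Nonempty V›
        by_cases hv : v ∈ A
        · exact ⟨v, hv⟩
        · obtain ⟨a, ha, -⟩ := hmax v hv
          exact ⟨a, ha⟩
      refine ⟨some (a, i0), ?_, ?_⟩
      · simp [ind, ha]
      · have : (blow H m).dist none (some (a, i0)) = 1 :=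
          SimpleGraph.dist_eq_one_iff_adj.2 (show (blow H m).Adj none (some (a, i0)) from trivial)
        rw [this]
        simp [ind, ha]
    | some b =>
      by_cases hb : b.1 ∈ A
      · exact ⟨some b, by simp [ind, hb], by simp [ind, hb]⟩
      · obtain ⟨a, ha, hadj⟩ := hmax _ hb
        refine ⟨some (a, b.2), by simp [ind, ha], ?_⟩
        have : (blow H m).dist (some b) (some (a, b.2)) = 1 :=
          SimpleGraph.dist_eq_one_iff_adj.2 (show (blow H m).Adj (some b) (some (a, b.2)) from hadj)
        rw [this]
        simp [ind, ha]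
  · intro g hg hle hne hdom
    have hx : ∃ x, g x < ind m A x := by
      by_contra hcon
      push Not at hcon
      exact hne (le_antisymm hle hcon)
    obtain ⟨x, hx⟩ := hx
    cases x with
    | none => simp [ind] at hx
    | some a =>
      have ha : a.1 ∈ A := by
        by_contra h
        simp [ind, h] at hx
      have hg0 : g (some a) = 0 := by
        simp only [ind, ha, if_true] at hx
        omega
      obtain ⟨w, hw0, hw⟩ := hdom (some a)
      have hwf := hle w
      cases w with
      | none =>
        simp only [ind] at hwf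
        omega
      | some b =>
        have hb : b.1 ∈ A := by
          by_contra h
          simp only [ind, h, if_false] at hwf
          omega
        simp only [ind, hb, if_true] at hwf
        rcases (dist_le_one H m _ _).1 (hw.trans hwf) with he | hadj
        · rw [← he] at hw0
          omega
        · have hadj' : H.Adj a.1 b.1 := hadj
          exact hA ha hb hadj'.ne hadj'

theorem sum_ind (A : Finset V) : ∑ x, ind m A x = m * A.card := by
  classical
  rw [Fintype.sum_option, Fintype.sum_prod_type]
  have h : ∀ a : V, ∑ i : Fin m, ind m A (some (a, i)) = if a ∈ A then m else 0 := by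
    intro a
    simp only [ind]
    split_ifs <;> simp
  rw [Finset.sum_congr rfl fun a _ => h a, Finset.sum_ite_mem]
  simp [ind, mul_comm]

/-- Reduction from Independent Set to upper broadcast domination and upper broadcast
irredundance. -/
theorem main [Nonempty V] (k : ℕ) (hk : 1 ≤ k) (hm : Fintype.card V + 3 ≤ m) :
    ((∃ f, MinDom (blow H m) f ∧ m * k ≤ ∑ x, f x) ↔
      ∃ A : Finset V, H.IsIndepSet (A : Set V) ∧ k ≤ A.card) ∧
    ((∃ f, Irr (blow H m) f ∧ m * k ≤ ∑ x, f x) ↔
      ∃ A : Finset V, H.IsIndepSet (A : Set V) ∧ k ≤ A.card) := by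
  have h1 : (∃ A : Finset V, H.IsIndepSet (A : Set V) ∧ k ≤ A.card) →
      ∃ f, MinDom (blow H m) f ∧ m * k ≤ ∑ x, f x := by
    rintro ⟨A0, h0, hk0⟩
    obtain ⟨A, hA, hc, hmax⟩ := exists_max H A0 h0
    refine ⟨ind m A, minDom_ind H m (by omega) A hA hmax, ?_⟩
    rw [sum_ind]
    exact Nat.mul_le_mul_left _ (hk0.trans hc)
  refine ⟨⟨?_, h1⟩, ⟨?_, fun h => ?_⟩⟩
  · rintro ⟨f, hf, hs⟩
    exact indep_of_irr H m k hk hm f (minDom_irr _ _ hf) hs
  · rintro ⟨f, hf, hs⟩
    exact indep_of_irr H m k hk hm f hf hs
  · obtain ⟨f, hf, hs⟩ := h1 h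
    exact ⟨f, minDom_irr _ _ hf, hs⟩

end fin

end Pool.Agent.R550.BI
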