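import Pool.Agent.R550.BI.Main

/-!
# Transfer along isomorphisms
-/

namespace Pool.Agent.R550.BI

variable {W W' : Type} (G : SimpleGraph W) (e : W' ≃ W)

theorem comap_dist (hG : G.Connected) (x y : W') :
    (G.comap e).dist x y = G.dist (e x) (e y) := by
  let φ : G.comap e ≃g G := SimpleGraph.Iso.comap e G
  have hG' : (G.comap e).Connected := φ.connected_iff.2 hG
  apply le_antisymm
  · obtain ⟨p, hp⟩ := hG.exists_walk_length_eq_dist (e x) (e y)
    have h := SimpleGraph.dist_le (p.map φ.symm.toHom)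
    rw [SimpleGraph.Walk.length_map, hp] at h
    have h1 : φ.symm.toHom (e x) = x := e.symm_apply_apply x
    have h2 : φ.symm.toHom (e y) = y := e.symm_apply_apply y
    rw [h1, h2] at h
    exact h
  · obtain ⟨p, hp⟩ := hG'.exists_walk_length_eq_dist x y
    have h := SimpleGraph.dist_le (p.map φ.toHom)
    rw [SimpleGraph.Walk.length_map, hp] at h
    exact h

theorem tr_broadcast (hd : ∀ x y, (G.comap e).dist x y = G.dist (e x) (e y)) (f : W → ℕ) :
    IsBroadcast (G.comap e) (f ∘ e) ↔ IsBroadcast G f := by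
  unfold IsBroadcast
  constructor
  · intro h v
    obtain ⟨u, hu⟩ := h (e.symm v)
    rw [hd] at hu
    exact ⟨e u, by simpa using hu⟩
  · intro h v
    obtain ⟨u, hu⟩ := h (e v)
    exact ⟨e.symm u, by rw [hd]; simpa using hu⟩

theorem tr_hears (hd : ∀ x y, (G.comap e).dist x y = G.dist (e x) (e y)) (f : W → ℕ) (u v : W') :
    Hears (G.comap e) (f ∘ e) u v ↔ Hears G f (e u) (e v) := by
  unfold Hears
  rw [hd]
  rfl

theorem tr_dom (hd : ∀ x y, (G.comap e).dist x y = G.dist (e x) (e y)) (f : W → ℕ) :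
    Dom (G.comap e) (f ∘ e) ↔ Dom G f := by
  unfold Dom
  constructor
  · intro h u
    obtain ⟨v, hv⟩ := h (e.symm u)
    rw [tr_hears G e hd] at hv
    exact ⟨e v, by simpa using hv⟩
  · intro h u
    obtain ⟨v, hv⟩ := h (e u)
    exact ⟨e.symm v, by rw [tr_hears G e hd]; simpa using hv⟩

theorem tr_minDom (hd : ∀ x y, (G.comap e).dist x y = G.dist (e x) (e y)) (f : W → ℕ) :
    MinDom (G.comap e) (f ∘ e) ↔ MinDom G f := by
  unfold MinDom
  rw [tr_broadcast G e hd, tr_dom G e hd]
  refine and_congr_right fun _ => and_congr_right fun _ => ⟨fun h g hg hle hne hdm => ?_,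
    fun h g hg hle hne hdm => ?_⟩
  · refine h (g ∘ e) ((tr_broadcast G e hd g).2 hg) (fun x => hle (e x)) (fun he => hne ?_)
      ((tr_dom G e hd g).2 hdm)
    funext x
    have := congrFun he (e.symm x)
    simpa using this
  · have hg' : g = (g ∘ e.symm) ∘ e := by
      funext x
      simp
    rw [hg'] at hg hdm
    refine h (g ∘ e.symm) ((tr_broadcast G e hd _).1 hg) (fun x => ?_) (fun he => hne ?_)
      ((tr_dom G e hd _).1 hdm)
    · have := hle (e.symm x)
      simpa using this
    · rw [hg', he]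

theorem tr_irr (hd : ∀ x y, (G.comap e).dist x y = G.dist (e x) (e y)) (f : W → ℕ) :
    Irr (G.comap e) (f ∘ e) ↔ Irr G f := by
  classical
  have key : ∀ v u : W', u ∈ PB (G.comap e) (f ∘ e) v ↔ e u ∈ PB G f (e v) := by
    intro v u
    have hup : ∀ k : ℕ, Function.update (f ∘ e) v k = (Function.update f (e v) k) ∘ e := by
      intro k
      funext x
      by_cases hx : x = v
      · subst hx; simp
      · have : e x ≠ e v := fun h => hx (e.injective h)
        simp [Function.update_of_ne hx, Function.update_of_ne this]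
    unfold PB
    simp only [Set.mem_ofPred_eq]
    rw [hd]
    refine and_congr Iff.rfl ?_
    constructor
    · intro h w hw
      refine h (e.symm w) ?_
      have h2 : Hears (G.comap e) ((Function.update f (e v) (f (e v) - 1)) ∘ e) u (e.symm w) := by
        rw [tr_hears G e hd]
        simpa using hw
      rw [← hup] at h2
      exact h2
    · intro h w hw
      refine h (e w) ?_
      have h2 : Hears (G.comap e) (Function.update (f ∘ e) v ((f ∘ e) v - 1)) u w := by
        convert hw
      rw [hup, tr_hears G e hd] at h2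
      exact h2
  unfold Irr
  rw [tr_broadcast G e hd]
  refine and_congr_right fun _ => ⟨fun h v hv => ?_, fun h v hv => ?_⟩
  · obtain ⟨u, hu⟩ := h (e.symm v) (by simpa using hv)
    rw [key] at hu
    exact ⟨e u, by simpa using hu⟩
  · obtain ⟨u, hu⟩ := h (e v) hv
    refine ⟨e.symm u, ?_⟩
    rw [key]
    simpa using hu

theorem tr_exists [Fintype W] [Fintype W'] (P : SimpleGraph W → (W → ℕ) → Prop)
    (P' : SimpleGraph W' → (W' → ℕ) → Prop) (h : ∀ f : W → ℕ, P' (G.comap e) (f ∘ e) ↔ P G f)
    (t : ℕ) : (∃ f, P' (G.comap e) f ∧ t ≤ ∑ x, f x) ↔ ∃ f, P G f ∧ t ≤ ∑ x, f x := by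
  constructor
  · rintro ⟨f, hf, hs⟩
    have hg' : f = (f ∘ e.symm) ∘ e := by
      funext x
      simp
    refine ⟨f ∘ e.symm, ?_, ?_⟩
    · rw [hg'] at hf
      exact (h _).1 hf
    · rw [← Equiv.sum_comp e]
      simpa using hs
  · rintro ⟨f, hf, hs⟩
    refine ⟨f ∘ e, (h _).2 hf, ?_⟩
    have := Equiv.sum_comp e f
    simp only [Function.comp]
    omega

end Pool.Agent.R550.BI
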